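import Pool.Agent.H206R2.Rot2.Main

/-!
# Sharp short periodic geodesics for `O(k) × O(m)`-invariant metrics on `S^{k+m-1}`

`IsProfile2 L f h`: `dr² + f(r)² g_{S^{k-1}} + h(r)² g_{S^{m-1}}`, `0 ≤ r ≤ L`, is a smooth metric on
`S^{k+m-1} ⊂ ℝ^k × ℝ^m`.  `IsGeodesic2 L f h v γ`: `γ` is a geodesic of speed `v` of this metric.
For every such metric there is a periodic geodesic of unit speed with period `T` such that
`T^n ∫_0^{π/2} sin^{k-1} cos^{m-1} ≤ (2π)^n ∫_0^L f^{k-1} h^{m-1}`, `n = k + m - 1`, i.e.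
`T^n vol(S^n) ≤ (2π)^n vol(M)`; for the round metric every periodic geodesic has length `≥ 2π`, so the
constant is optimal.
-/

open Real Set MeasureTheory

namespace Pool.Agent.Results.MP_3eff7f_gt.BirotationalSpheres

open Pool.Agent.H206R2.Rot2

theorem result :
    (∀ (k m : ℕ), 2 ≤ k → 2 ≤ m → ∀ (L : ℝ) (f h : ℝ → ℝ), IsProfile2 L f h →
      ∃ (γ : ℝ → EuclideanSpace ℝ (Fin k) × EuclideanSpace ℝ (Fin m)) (T : ℝ), 0 < T ∧
        IsGeodesic2 L f h 1 γ ∧ (∀ t, γ (t + T) = γ t) ∧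
        T ^ (k + m - 1) * (∫ t in (0 : ℝ)..π / 2, Real.sin t ^ (k - 1) * Real.cos t ^ (m - 1))
          ≤ (2 * π) ^ (k + m - 1) * ∫ r in (0 : ℝ)..L, f r ^ (k - 1) * h r ^ (m - 1)) ∧
    (IsProfile2 (π / 2) Real.sin Real.cos ∧
      ∀ (k m : ℕ) (γ : ℝ → EuclideanSpace ℝ (Fin k) × EuclideanSpace ℝ (Fin m)) (v T : ℝ),
        0 < v → 0 < T → IsGeodesic2 (π / 2) Real.sin Real.cos v γ → (∀ t, γ (t + T) = γ t) →
        2 * π ≤ v * T) :=
  ⟨fun _ _ hk hm _ _ _ hf => Main.short_geodesic2 hf hk hm,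
    TA.round_profile2, fun _ _ _ _ _ hv hT hγ hper => TC.round_length2 hv hT hγ hper⟩

end Pool.Agent.Results.MP_3eff7f_gt.BirotationalSpheres
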