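import Pool.Agent.H738R3.CP.Main

/-!
# Sharp short periodic geodesics for `U(n)`-invariant metrics on `ℂP^n`

`IsProfileCP L f h`: `dr² + f(r)² θ² + h(r)² g_FS`, `0 ≤ r ≤ L`, is a smooth metric on `ℂP^n` (`θ` the
contact form of the unit sphere `S^{2n-1} ⊂ ℂ^n`, `g_FS` its horizontal metric).
`IsGeodesicCP L f h v γ`: `γ` is a geodesic of speed `v` of this metric.  For every such metric, `n ≥ 2`,
there is a periodic geodesic of unit speed with period `T` such that
`T^{2n} ≤ 2n π^{2n} ∫_0^L f h^{2n-2}`, i.e. `T^{2n} vol(ℂP^n, g_FS) ≤ π^{2n} vol(M)`; for the Fubini-Study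
metric every periodic geodesic has length `≥ π`, so the constant is optimal.
-/

open Real Set MeasureTheory

namespace Pool.Agent.Results.MP_3eff7f_gt.ComplexProjective

open H738CP

theorem result :
    (∀ n : ℕ, 2 ≤ n → ∀ (L : ℝ) (f h : ℝ → ℝ), IsProfileCP L f h →
      ∃ (γ : ℝ → Submodule ℂ (ℂ × EuclideanSpace ℂ (Fin n))) (T : ℝ), 0 < T ∧
        IsGeodesicCP L f h 1 γ ∧ (∀ t, γ (t + T) = γ t) ∧
        T ^ (2 * n) ≤ 2 * n * π ^ (2 * n) * ∫ r in (0 : ℝ)..L, f r * h r ^ (2 * n - 2)) ∧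
    (IsProfileCP (π / 2) (fun r => Real.sin r * Real.cos r) Real.sin ∧
      (∀ n : ℕ, 2 ≤ n → 2 * (n : ℝ) *
        ∫ r in (0 : ℝ)..π / 2, Real.sin r * Real.cos r * Real.sin r ^ (2 * n - 2) = 1) ∧
      ∀ (n : ℕ) (γ : ℝ → Submodule ℂ (ℂ × EuclideanSpace ℂ (Fin n))) (v T : ℝ), 0 < v → 0 < T →
        IsGeodesicCP (π / 2) (fun r => Real.sin r * Real.cos r) Real.sin v γ →
        (∀ t, γ (t + T) = γ t) → π ≤ v * T) := by
  refine ⟨fun n hn L f h hf => Main.short_geodesicCP hf hn, FP.profile_FS, fun n hn => ?_,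
    fun n γ v T hv hT hγ hper => FL.length_FS hv hT hγ hper⟩
  have hpos : (0 : ℝ) < n := by exact_mod_cast (by omega : 0 < n)
  have e : ∀ r : ℝ, Real.sin r * Real.cos r * Real.sin r ^ (2 * n - 2) =
      Real.sin r ^ (2 * n - 1) * Real.cos r := by
    intro r
    have : Real.sin r ^ (2 * n - 1) = Real.sin r ^ (2 * n - 2) * Real.sin r := by
      rw [← pow_succ]
      congr 1
      omega
    rw [this]
    ring
  simp only [e]
  have hd : ∀ x ∈ uIcc (0 : ℝ) (π / 2), HasDerivAt (fun x => Real.sin x ^ (2 * n) / (2 * n))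
      (Real.sin x ^ (2 * n - 1) * Real.cos x) x := by
    intro x _
    have h1 := ((Real.hasDerivAt_sin x).pow (2 * n)).div_const (2 * (n : ℝ))
    refine h1.congr_deriv ?_
    push_cast
    field_simp
  rw [intervalIntegral.integral_eq_sub_of_hasDerivAt hd
    (((Real.continuous_sin.pow _).mul Real.continuous_cos).intervalIntegrable _ _)]
  rw [Real.sin_pi_div_two, Real.sin_zero, one_pow, zero_pow (by omega)]
  field_simp
  ring

end Pool.Agent.Results.MP_3eff7f_gt.ComplexProjective
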