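import Pool.Agent.H738R3.CP.HMain
import Pool.Agent.H738R3.CP.HL

/-!
# Short periodic geodesics for `Sp(n)Sp(1)`-invariant metrics on `ℍP^n`

`IsProfileCP L f h`: `dr² + f(r)² |θ|² + h(r)² g_hor`, `0 ≤ r ≤ L`, is a smooth metric on `ℍP^n` (`θ` the
`Im ℍ`-valued connection form of the quaternionic Hopf fibration of `S^{4n-1} ⊂ ℍ^n`, `g_hor` its
horizontal metric).  `IsGeodesicHP L f h v γ`: `γ` is a geodesic of speed `v` of this metric.  For every
such metric, `n ≥ 2`, there is a periodic geodesic of unit speed with period `T` such that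
`T^{4n} ≤ 4n (2n+1) π^{4n} ∫_0^L f³ h^{4n-4}`; the right hand side is `π^{4n}` for the symmetric metric
`f = sin cos`, `h = sin`, `L = π/2`, all of whose periodic geodesics have length `≥ π`: the constant is
optimal.
-/

open Real Set MeasureTheory Quaternion

namespace Pool.Agent.Results.MP_3eff7f_gt.QuaternionicProjective

open H738CP

theorem result :
    (∀ n : ℕ, 2 ≤ n → ∀ (L : ℝ) (f h : ℝ → ℝ), IsProfileCP L f h →
      ∃ (γ : ℝ → Set (ℍ[ℝ] × (Fin n → ℍ[ℝ]))) (T : ℝ), 0 < T ∧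
        IsGeodesicHP L f h 1 γ ∧ (∀ t, γ (t + T) = γ t) ∧
        T ^ (4 * n) ≤ 4 * n * (2 * n + 1) * π ^ (4 * n) *
          ∫ r in (0 : ℝ)..L, f r ^ 3 * h r ^ (4 * n - 4)) ∧
    (IsProfileCP (π / 2) (fun r => Real.sin r * Real.cos r) Real.sin ∧
      (∀ n : ℕ, 2 ≤ n → 4 * (n : ℝ) * (2 * n + 1) *
        ∫ r in (0 : ℝ)..π / 2, (Real.sin r * Real.cos r) ^ 3 * Real.sin r ^ (4 * n - 4) = 1) ∧
      ∀ (n : ℕ) (γ : ℝ → Set (ℍ[ℝ] × (Fin n → ℍ[ℝ]))) (v T : ℝ), 0 < v → 0 < T →
        IsGeodesicHP (π / 2) (fun r => Real.sin r * Real.cos r) Real.sin v γ →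
        (∀ t, γ (t + T) = γ t) → π ≤ v * T) := by
  refine ⟨fun _ hn _ _ _ hf => HMain.short_geodesicHP hf hn, FP.profile_FS, fun n hn => ?_,
    fun n γ v T hv hT hγ hper => HL.length_HP hv hT hγ hper⟩
  have hpos : (0 : ℝ) < n := by exact_mod_cast (by omega : 0 < n)
  have e : ∀ r : ℝ, (Real.sin r * Real.cos r) ^ 3 * Real.sin r ^ (4 * n - 4) =
      (Real.sin r ^ (4 * n - 1) - Real.sin r ^ (4 * n + 1)) * Real.cos r := by
    intro r
    have h1 : Real.sin r ^ (4 * n - 1) = Real.sin r ^ 3 * Real.sin r ^ (4 * n - 4) := by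
      rw [← pow_add]
      congr 1
      omega
    have h2 : Real.sin r ^ (4 * n + 1) = Real.sin r ^ 5 * Real.sin r ^ (4 * n - 4) := by
      rw [← pow_add]
      congr 1
      omega
    have h3 : Real.cos r ^ 2 = 1 - Real.sin r ^ 2 := by
      have := Real.sin_sq_add_cos_sq r
      linarith
    rw [h1, h2]
    have h4 : Real.cos r ^ 3 = (1 - Real.sin r ^ 2) * Real.cos r := by
      rw [← h3]
      ring
    rw [mul_pow, h4]
    ring
  simp only [e]
  have hd : ∀ x ∈ uIcc (0 : ℝ) (π / 2), HasDerivAt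
      (fun x => Real.sin x ^ (4 * n) / (4 * n) - Real.sin x ^ (4 * n + 2) / (4 * n + 2))
      ((Real.sin x ^ (4 * n - 1) - Real.sin x ^ (4 * n + 1)) * Real.cos x) x := by
    intro x _
    have h1 := ((Real.hasDerivAt_sin x).pow (4 * n)).div_const (4 * (n : ℝ))
    have h2 := ((Real.hasDerivAt_sin x).pow (4 * n + 2)).div_const (4 * (n : ℝ) + 2)
    refine (h1.sub h2).congr_deriv ?_
    have e1 : 4 * n + 2 - 1 = 4 * n + 1 := by omega
    rw [e1]
    push_cast
    field_simp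
  rw [intervalIntegral.integral_eq_sub_of_hasDerivAt hd
    ((((Real.continuous_sin.pow _).sub (Real.continuous_sin.pow _)).mul
      Real.continuous_cos).intervalIntegrable _ _)]
  rw [Real.sin_pi_div_two, Real.sin_zero, one_pow, one_pow, zero_pow (by omega),
    zero_pow (by omega)]
  field_simp
  ring

end Pool.Agent.Results.MP_3eff7f_gt.QuaternionicProjective
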