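import Pool.Agent.H206R2.Rot.Main

/-!
# Sharp short periodic geodesics for rotationally symmetric metrics on `S^n`

`IsProfile L f`: `dr² + f(r)² g_{S^{n-1}}`, `0 < r < L`, is a smooth metric on `S^n`.
`IsGeodesic L f v γ`: `γ : ℝ → S^n ⊂ ℝ^n × ℝ` is a geodesic of speed `v` of this metric.
For every such metric there is a periodic geodesic of unit speed with period `T` such that
`T^n ∫_0^π sin^{n-1} ≤ (2π)^n ∫_0^L f^{n-1}`, i.e. `T^n vol(S^n) ≤ (2π)^n vol(M)`;
for the round metric every periodic geodesic has length `≥ 2π`, so the constant is optimal.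
-/

open Real Set MeasureTheory

namespace Pool.Agent.Results.MP_3eff7f_gt.RotationallySymmetric

open Pool.Agent.H206R2.Rot

theorem result :
    (∀ (n : ℕ), 2 ≤ n → ∀ (L : ℝ) (f : ℝ → ℝ), IsProfile L f →
      ∃ (γ : ℝ → EuclideanSpace ℝ (Fin n) × ℝ) (T : ℝ), 0 < T ∧ IsGeodesic L f 1 γ ∧
        (∀ t, γ (t + T) = γ t) ∧
        T ^ n * (∫ t in (0 : ℝ)..π, Real.sin t ^ (n - 1))
          ≤ (2 * π) ^ n * ∫ r in (0 : ℝ)..L, f r ^ (n - 1)) ∧
    (IsProfile π Real.sin ∧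
      ∀ (n : ℕ) (γ : ℝ → EuclideanSpace ℝ (Fin n) × ℝ) (v T : ℝ), 0 < v → 0 < T →
        IsGeodesic π Real.sin v γ → (∀ t, γ (t + T) = γ t) → 2 * π ≤ v * T) :=
  ⟨fun _ hn _ _ hf => Main.short_geodesic hf hn,
    TG.round_profile, fun _ _ _ _ hv hT hγ hper => TG.round_length hv hT hγ hper⟩

end Pool.Agent.Results.MP_3eff7f_gt.RotationallySymmetric
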